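import Pool.Agent.helper84.NR.SpecW

set_option autoImplicit false

namespace Pool.Agent.helper84.NR

open scoped Classical
open Finset

/-- arithmetic for BIP -/
theorem BIP_arith (a b n : ℕ) (h1 : 2 * a + 2 * b ≤ n) (h2 : n ≤ a * b) (h3 : 1 ≤ a) :
    a + b + 8 ≤ n := by
  have h4 : 2 * a + 2 * b ≤ a * b := h1.trans h2
  obtain ⟨c, rfl⟩ : ∃ c, a = c + 1 := ⟨a - 1, by omega⟩
  rcases c with _ | c
  · omega
  rcases c with _ | c
  · omega
  rcases b with _ | b
  · omega
  rcases b with _ | b
  · omega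
  rcases b with _ | b
  · omega
  have h5 : 4 ≤ (c + 1) * (b + 1) := by
    have : (c + 1 + 1 + 1) * (b + 1 + 1 + 1) =
      (c + 1) * (b + 1) + 2 * (c + 1) + 2 * (b + 1) + 4 := by ring
    omega
  have h6 : 4 ≤ (c + 1) + (b + 1) := by
    by_contra h
    have hc : c + b ≤ 1 := by omega
    rcases c with _ | c
    · rcases b with _ | b
      · omega
      · have : b = 0 := by omega
        subst this
        omega
    · have hc0 : c = 0 := by omega
      have hb0 : b = 0 := by omega
      subst hc0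
      subst hb0
      omega
  omega

theorem BIP : BIP_stmt := by
  intro F P X Y hX hY hXY hP hA hB
  set dA : F → ℕ := fun A => (P.filter (fun p => p.1 = A)).card with hdA
  set dB : F → ℕ := fun B => (P.filter (fun p => p.2 = B)).card with hdB
  have hApos : ∀ p ∈ P, 1 ≤ dA p.1 := by
    intro p hp
    exact Finset.card_pos.mpr ⟨p, by simp [hp]⟩
  have hBpos : ∀ p ∈ P, 1 ≤ dB p.2 := by
    intro p hp
    exact Finset.card_pos.mpr ⟨p, by simp [hp]⟩
  -- a pair whose first member has degree one is in X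
  have hX1 : ∀ p ∈ P, dA p.1 = 1 → p ∈ X := by
    intro p hp h1
    have h2 := hA p.1
    have h3 : (P.filter (fun q => q.1 = p.1)).card = 1 := h1
    rw [h3] at h2
    obtain ⟨q, hq⟩ := Finset.card_pos.mp (lt_of_lt_of_le (by norm_num) h2)
    rw [Finset.mem_filter] at hq
    have hq' : q ∈ P.filter (fun q => q.1 = p.1) := by
      rw [Finset.mem_filter]
      exact ⟨hX hq.1, hq.2⟩
    have hp' : p ∈ P.filter (fun q => q.1 = p.1) := by
      rw [Finset.mem_filter]
      exact ⟨hp, rfl⟩
    have := Finset.card_le_one.mp h3.le q hq' p hp'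
    rw [← this]
    exact hq.1
  have hY1 : ∀ p ∈ P, dB p.2 = 1 → p ∈ Y := by
    intro p hp h1
    have h2 := hB p.2
    have h3 : (P.filter (fun q => q.2 = p.2)).card = 1 := h1
    rw [h3] at h2
    obtain ⟨q, hq⟩ := Finset.card_pos.mp (lt_of_lt_of_le (by norm_num) h2)
    rw [Finset.mem_filter] at hq
    have hq' : q ∈ P.filter (fun q => q.2 = p.2) := by
      rw [Finset.mem_filter]
      exact ⟨hY hq.1, hq.2⟩
    have hp' : p ∈ P.filter (fun q => q.2 = p.2) := by
      rw [Finset.mem_filter]
      exact ⟨hp, rfl⟩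
    have := Finset.card_le_one.mp h3.le q hq' p hp'
    rw [← this]
    exact hq.1
  have hdisj : ∀ p, p ∈ X → p ∈ Y → False := by
    intro p h1 h2
    exact (Finset.disjoint_left.mp hXY) h1 h2
  set A2 := (P.image Prod.fst).filter (fun A => 2 ≤ dA A) with hA2
  set B2 := (P.image Prod.snd).filter (fun B => 2 ≤ dB B) with hB2
  set A1 := (P.image Prod.fst).filter (fun A => ¬ 2 ≤ dA A) with hA1
  set B1 := (P.image Prod.snd).filter (fun B => ¬ 2 ≤ dB B) with hB1
  have hIA : (P.image Prod.fst).card = A2.card + A1.card := by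
    rw [hA2, hA1]
    exact (Finset.card_filter_add_card_filter_not _).symm
  have hIB : (P.image Prod.snd).card = B2.card + B1.card := by
    rw [hB2, hB1]
    exact (Finset.card_filter_add_card_filter_not _).symm
  set Q := P.filter (fun p => 2 ≤ dA p.1 ∧ 2 ≤ dB p.2) with hQ
  set QA := P.filter (fun p => dA p.1 = 1) with hQA
  set QB := P.filter (fun p => dB p.2 = 1) with hQB
  -- card P
  have hcP : Q.card + QA.card + QB.card ≤ P.card := by
    have h1 : Disjoint Q QA := by
      rw [Finset.disjoint_left]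
      intro p hp hp'
      rw [hQ, Finset.mem_filter] at hp
      rw [hQA, Finset.mem_filter] at hp'
      omega
    have h2 : Disjoint (Q ∪ QA) QB := by
      rw [Finset.disjoint_left]
      intro p hp hp'
      rw [hQB, Finset.mem_filter] at hp'
      rw [Finset.mem_union, hQ, hQA, Finset.mem_filter, Finset.mem_filter] at hp
      rcases hp with hp | hp
      · omega
      · exact hdisj p (hX1 p hp.1 hp.2) (hY1 p hp.1 hp'.2)
    rw [← Finset.card_union_of_disjoint h1, ← Finset.card_union_of_disjoint h2]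
    apply Finset.card_le_card
    intro p hp
    rw [Finset.mem_union, Finset.mem_union, hQ, hQA, hQB, Finset.mem_filter, Finset.mem_filter,
      Finset.mem_filter] at hp
    tauto
  have hcA : A1.card ≤ QA.card := by
    refine le_trans (Finset.card_le_card (t := QA.image Prod.fst) ?_) Finset.card_image_le
    intro A hAm
    rw [hA1, Finset.mem_filter, Finset.mem_image] at hAm
    obtain ⟨⟨p, hp, rfl⟩, h2⟩ := hAm
    rw [Finset.mem_image]
    refine ⟨p, ?_, rfl⟩
    rw [hQA, Finset.mem_filter]
    exact ⟨hp, by have := hApos p hp; omega⟩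
  have hcB : B1.card ≤ QB.card := by
    refine le_trans (Finset.card_le_card (t := QB.image Prod.snd) ?_) Finset.card_image_le
    intro A hAm
    rw [hB1, Finset.mem_filter, Finset.mem_image] at hAm
    obtain ⟨⟨p, hp, rfl⟩, h2⟩ := hAm
    rw [Finset.mem_image]
    refine ⟨p, ?_, rfl⟩
    rw [hQB, Finset.mem_filter]
    exact ⟨hp, by have := hBpos p hp; omega⟩
  set X2 := X.filter (fun p => 2 ≤ dA p.1) with hX2
  set Y2 := Y.filter (fun p => 2 ≤ dB p.2) with hY2
  have hX2Q : ∀ p ∈ X2, p ∈ Q := by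
    intro p hp
    rw [hX2, Finset.mem_filter] at hp
    rw [hQ, Finset.mem_filter]
    refine ⟨hX hp.1, hp.2, ?_⟩
    by_contra h
    have h1 := hBpos p (hX hp.1)
    exact hdisj p hp.1 (hY1 p (hX hp.1) (by omega))
  have hY2Q : ∀ p ∈ Y2, p ∈ Q := by
    intro p hp
    rw [hY2, Finset.mem_filter] at hp
    rw [hQ, Finset.mem_filter]
    refine ⟨hY hp.1, ?_, hp.2⟩
    by_contra h
    have h1 := hApos p (hY hp.1)
    exact hdisj p (hX1 p (hY hp.1) (by omega)) hp.1
  have hQ2 : X2.card + Y2.card ≤ Q.card := by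
    have h1 : Disjoint X2 Y2 := by
      rw [Finset.disjoint_left]
      intro p hp hp'
      rw [hX2, Finset.mem_filter] at hp
      rw [hY2, Finset.mem_filter] at hp'
      exact hdisj p hp.1 hp'.1
    rw [← Finset.card_union_of_disjoint h1]
    apply Finset.card_le_card
    intro p hp
    rw [Finset.mem_union] at hp
    rcases hp with hp | hp
    · exact hX2Q p hp
    · exact hY2Q p hp
  have hX2c : 2 * A2.card ≤ X2.card := by
    have h1 : ∀ p ∈ X2, Prod.fst p ∈ A2 := by
      intro p hp
      rw [hX2, Finset.mem_filter] at hp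
      rw [hA2, Finset.mem_filter, Finset.mem_image]
      exact ⟨⟨p, hX hp.1, rfl⟩, hp.2⟩
    rw [Finset.card_eq_sum_card_fiberwise h1]
    have h2 : ∑ _A ∈ A2, 2 ≤ ∑ A ∈ A2, (X2.filter (fun p => p.1 = A)).card := by
      apply Finset.sum_le_sum
      intro A hAm
      rw [hA2, Finset.mem_filter] at hAm
      have h3 := hA A
      have h4 : 2 ≤ (P.filter (fun p => p.1 = A)).card := hAm.2
      rw [min_eq_left h4] at h3
      refine le_trans h3 (Finset.card_le_card ?_)
      intro p hp
      rw [Finset.mem_filter] at hp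
      rw [Finset.mem_filter, hX2, Finset.mem_filter]
      exact ⟨⟨hp.1, by rw [hp.2]; exact hAm.2⟩, hp.2⟩
    rw [Finset.sum_const, smul_eq_mul, mul_comm] at h2
    exact h2
  have hY2c : 2 * B2.card ≤ Y2.card := by
    have h1 : ∀ p ∈ Y2, Prod.snd p ∈ B2 := by
      intro p hp
      rw [hY2, Finset.mem_filter] at hp
      rw [hB2, Finset.mem_filter, Finset.mem_image]
      exact ⟨⟨p, hY hp.1, rfl⟩, hp.2⟩
    rw [Finset.card_eq_sum_card_fiberwise h1]
    have h2 : ∑ _A ∈ B2, 2 ≤ ∑ A ∈ B2, (Y2.filter (fun p => p.2 = A)).card := by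
      apply Finset.sum_le_sum
      intro A hAm
      rw [hB2, Finset.mem_filter] at hAm
      have h3 := hB A
      have h4 : 2 ≤ (P.filter (fun p => p.2 = A)).card := hAm.2
      rw [min_eq_left h4] at h3
      refine le_trans h3 (Finset.card_le_card ?_)
      intro p hp
      rw [Finset.mem_filter] at hp
      rw [Finset.mem_filter, hY2, Finset.mem_filter]
      exact ⟨⟨hp.1, by rw [hp.2]; exact hAm.2⟩, hp.2⟩
    rw [Finset.sum_const, smul_eq_mul, mul_comm] at h2
    exact h2
  have hQle : Q.card ≤ A2.card * B2.card := by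
    rw [← Finset.card_product]
    apply Finset.card_le_card
    intro p hp
    rw [hQ, Finset.mem_filter] at hp
    rw [Finset.mem_product, hA2, hB2, Finset.mem_filter, Finset.mem_filter, Finset.mem_image,
      Finset.mem_image]
    exact ⟨⟨⟨p, hp.1, rfl⟩, hp.2.1⟩, ⟨⟨p, hp.1, rfl⟩, hp.2.2⟩⟩
  -- Q is nonempty
  have hA2pos : 1 ≤ A2.card := by
    obtain ⟨p, hp⟩ := hP
    by_cases h1 : 2 ≤ dA p.1
    · apply Finset.card_pos.mpr
      refine ⟨p.1, ?_⟩
      rw [hA2, Finset.mem_filter, Finset.mem_image]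
      exact ⟨⟨p, hp, rfl⟩, h1⟩
    · have h2 := hApos p hp
      have h3 : p ∈ X := hX1 p hp (by omega)
      have h4 : 2 ≤ dB p.2 := by
        by_contra h
        have h5 := hBpos p hp
        exact hdisj p h3 (hY1 p hp (by omega))
      have h6 := hB p.2
      have h7 : 2 ≤ (P.filter (fun q => q.2 = p.2)).card := h4
      rw [min_eq_left h7] at h6
      obtain ⟨q, hq⟩ := Finset.card_pos.mp (lt_of_lt_of_le (by norm_num) h6)
      rw [Finset.mem_filter] at hq
      have h8 : q ∈ Y2 := by
        rw [hY2, Finset.mem_filter]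
        exact ⟨hq.1, by rw [hq.2]; exact h4⟩
      have h9 := hY2Q q h8
      rw [hQ, Finset.mem_filter] at h9
      apply Finset.card_pos.mpr
      refine ⟨q.1, ?_⟩
      rw [hA2, Finset.mem_filter, Finset.mem_image]
      exact ⟨⟨q, h9.1, rfl⟩, h9.2.1⟩
  have hfin := BIP_arith A2.card B2.card Q.card (by omega) hQle hA2pos
  rw [hIA, hIB]
  omega

end Pool.Agent.helper84.NR
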